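import Pool.Agent.Y588.VT.Defs
import Pool.Agent.H685R3.Game
import Pool.Agent.H685R3.Inv2

set_option autoImplicit false

namespace Pool.Agent.Y588.VT

open Pool.Agent.Helper227 Pool.Agent.H685R3

/-- Disjoint columns of positions, those for the moves of each player being positions of that
player. -/
structure Cols (c : ℕ → ℕ → ℕ) : Prop where
  par : ∀ k n, c k n % 2 = k % 2
  inj : ∀ k n k' n', c k n = c k' n' → k = k'
  mono : ∀ k n n', n < n' → c k n < c k n'

theorem Cols.le {c : ℕ → ℕ → ℕ} (hc : Cols c) (k n : ℕ) : n ≤ c k n := by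
  induction n with
  | zero => omega
  | succ n ih =>
    have := hc.mono k n (n + 1) (by omega)
    omega

theorem Cols.lt_of {c : ℕ → ℕ → ℕ} (hc : Cols c) {k n n' : ℕ} (h : c k n < c k n') : n < n' := by
  by_contra h1
  rcases Nat.eq_or_lt_of_le (not_lt.1 h1) with h2 | h2
  · rw [h2] at h
    omega
  · have := hc.mono k n' n h2
    omega

theorem Settled.unique {c : ℕ → ℕ → ℕ} {x : ℕ → Bool} {k : ℕ} {b b' : Bool}
    (h : Settled c x k b) (h' : Settled c x k b') : b = b' := by
  obtain ⟨N, h⟩ := h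
  obtain ⟨N', h'⟩ := h'
  rw [← h (max N N') (le_max_left _ _), h' (max N N') (le_max_right _ _)]

/-- The voting set for the player moving at the positions congruent to `β`. -/
def VB (c : ℕ → ℕ → ℕ) (β : ℕ) (A : Set (ℕ → Bool)) : Set (ℕ → Bool) :=
  {x | (∃ y ∈ A, ∀ k, Settled c x k (y k)) ∨
    ∃ k, k % 2 ≠ β ∧ (∀ b, ¬ Settled c x k b) ∧ ∀ j < k, ∃ b, Settled c x j b}

theorem voting_eq (c : ℕ → ℕ → ℕ) (A : Set (ℕ → Bool)) : Voting c A = VB c 0 A := by
  ext x
  refine or_congr Iff.rfl (exists_congr fun k => and_congr_left fun _ => ?_)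
  omega

theorem exists_least {c : ℕ → ℕ → ℕ} {x : ℕ → Bool} (h : ¬ ∀ k, ∃ b, Settled c x k b) :
    ∃ k, (∀ b, ¬ Settled c x k b) ∧ ∀ j < k, ∃ b, Settled c x j b := by
  classical
  have h1 : ∃ k, ¬ ∃ b, Settled c x k b := by
    by_contra h2
    exact h fun k => by
      by_contra h3
      exact h2 ⟨k, h3⟩
  refine ⟨Nat.find h1, fun b hb => Nat.find_spec h1 ⟨b, hb⟩, fun j hj => ?_⟩
  by_contra h3
  exact Nat.find_min h1 hj h3

theorem voting_compl (c : ℕ → ℕ → ℕ) (A : Set (ℕ → Bool)) : (Voting c A)ᶜ = VB c 1 Aᶜ := by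
  ext x
  constructor
  · intro hx
    by_cases h : ∀ k, ∃ b, Settled c x k b
    · choose y hy using h
      refine Or.inl ⟨y, fun hA => hx (Or.inl ⟨y, hA, hy⟩), hy⟩
    · obtain ⟨k, h1, h2⟩ := exists_least h
      refine Or.inr ⟨k, fun h3 => hx (Or.inr ⟨k, h3, h1, h2⟩), h1, h2⟩
  · rintro (⟨y, hy, h1⟩ | ⟨k, hk, h1, h2⟩) (⟨y', hy', h3⟩ | ⟨k', hk', h3, h4⟩)
    · have : y = y' := funext fun k => (h1 k).unique (h3 k)
      rw [this] at hy
      exact hy hy'
    · exact h3 _ (h1 k')
    · exact h1 _ (h3 k)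
    · rcases lt_trichotomy k k' with h5 | h5 | h5
      · obtain ⟨b, hb⟩ := h4 k h5
        exact h1 b hb
      · rw [h5] at hk
        exact hk hk'
      · obtain ⟨b, hb⟩ := h2 k' h5
        exact h3 b hb

/-- The last vote for the move `i`. -/
def lastVote (c : ℕ → ℕ → ℕ) (L : List Bool) (i : ℕ) : Bool :=
  L.getD (c i (Nat.findGreatest (fun n => c i n < L.length) L.length)) false

theorem lastVote_pre {c : ℕ → ℕ → ℕ} (hc : Cols c) {x : ℕ → Bool} {i N m : ℕ} {b : Bool}
    (h : ∀ n ≥ N, x (c i n) = b) (hm : c i N < m) : lastVote c (pre x m) i = b := by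
  have h1 : N ≤ m := (hc.le i N).trans hm.le
  rw [lastVote, length_pre]
  have h2 : c i (Nat.findGreatest (fun n => c i n < m) m) < m :=
    Nat.findGreatest_spec (P := fun n => c i n < m) h1 hm
  have h3 : N ≤ Nat.findGreatest (fun n => c i n < m) m :=
    Nat.le_findGreatest (P := fun n => c i n < m) h1 hm
  rw [pre_getD _ _ _ _ h2]
  exact h _ h3

theorem wins_VB {c : ℕ → ℕ → ℕ} (hc : Cols c) {β : ℕ} (hβ : β < 2) {A : Set (ℕ → Bool)}
    (h : Wins β A) : Wins β (VB c β A) := by
  classical
  obtain ⟨s, hs⟩ := h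
  refine ⟨fun L => if h : ∃ k n, c k n = L.length then
    s ((List.range h.choose).map (lastVote c L)) else false, fun x hx => ?_⟩
  have key : ∀ k, k % 2 = β → ∀ n,
      x (c k n) = s ((List.range k).map (lastVote c (pre x (c k n)))) := by
    intro k hk n
    have h1 : c k n = 2 * (c k n / 2) + β := by
      have := hc.par k n
      omega
    have h2 := hx (c k n / 2)
    rw [← h1, hist_eq_pre] at h2
    rw [h2]
    have h3 : ∃ k' n', c k' n' = (pre x (c k n)).length := ⟨k, n, by rw [length_pre]⟩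
    beta_reduce
    rw [dif_pos h3]
    have h4 : h3.choose = k := by
      obtain ⟨n', h5⟩ := h3.choose_spec
      exact hc.inj _ _ _ _ (h5.trans (length_pre _ _))
    rw [h4]
  have key2 : ∀ k, k % 2 = β → ∀ y : ℕ → Bool, (∀ j < k, Settled c x j (y j)) →
      Settled c x k (s (pre y k)) := by
    intro k hk y hy
    have h1 : ∀ j, ∃ N, j < k → ∀ n ≥ N, x (c j n) = y j := by
      intro j
      by_cases hj : j < k
      · obtain ⟨N, hN⟩ := hy j hj
        exact ⟨N, fun _ => hN⟩
      · exact ⟨0, fun h => absurd h hj⟩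
    choose N hN using h1
    refine ⟨(Finset.range k).sup (fun j => c j (N j)) + 1, fun n hn => ?_⟩
    rw [key k hk]
    congr 1
    refine List.map_congr_left fun j hj => ?_
    rw [List.mem_range] at hj
    refine lastVote_pre hc (hN j hj) ?_
    have h2 : c j (N j) ≤ (Finset.range k).sup (fun j => c j (N j)) :=
      Finset.le_sup (f := fun j => c j (N j)) (Finset.mem_range.2 hj)
    have h3 := hc.le k n
    omega
  by_cases hall : ∀ k, ∃ b, Settled c x k b
  · choose y hy using hall
    refine Or.inl ⟨y, hs y fun n => ?_, hy⟩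
    rw [hist_eq_pre]
    exact (hy (2 * n + β)).unique (key2 (2 * n + β) (by omega) y fun j _ => hy j)
  · obtain ⟨k, h1, h2⟩ := exists_least hall
    refine Or.inr ⟨k, fun hk => ?_, h1, h2⟩
    have h3 : ∀ j, ∃ b, j < k → Settled c x j b := by
      intro j
      by_cases hj : j < k
      · obtain ⟨b, hb⟩ := h2 j hj
        exact ⟨b, fun _ => hb⟩
      · exact ⟨false, fun h => absurd h hj⟩
    choose y hy using h3
    exact h1 _ (key2 k hk y hy)

/-- Strategies which remember a state. -/
theorem wins_of_memory {S : Type} {β : ℕ} {A : Set (ℕ → Bool)} (P : List Bool → S → Prop)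
    (R : List Bool → S → S → Prop) (s0 : S) (h0 : P [] s0)
    (own : ∀ h s, h.length % 2 = β → P h s → ∃ b s', P (h ++ [b]) s' ∧ R h s s')
    (opp : ∀ h s, h.length % 2 ≠ β → P h s → ∀ b, ∃ s', P (h ++ [b]) s' ∧ R h s s')
    (fin : ∀ (y : ℕ → Bool) (q : ℕ → S), (∀ n, P (pre y n) (q n)) →
      (∀ n, R (pre y n) (q n) (q (n + 1))) → y ∈ A) : Wins β A := by
  classical
  have own' : ∀ h s, ∃ b : Bool, h.length % 2 = β → P h s →
      ∃ s', P (h ++ [b]) s' ∧ R h s s' := by
    intro h s
    by_cases h1 : h.length % 2 = β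
    · by_cases h2 : P h s
      · obtain ⟨b, h3⟩ := own h s h1 h2
        exact ⟨b, fun _ _ => h3⟩
      · exact ⟨false, fun _ h => absurd h h2⟩
    · exact ⟨false, fun h => absurd h h1⟩
  choose nb hnb using own'
  have next : ∀ h s b, ∃ s' : S, (∃ s'', P (h ++ [b]) s'' ∧ R h s s'') →
      P (h ++ [b]) s' ∧ R h s s' := by
    intro h s b
    by_cases h1 : ∃ s'', P (h ++ [b]) s'' ∧ R h s s''
    · obtain ⟨s'', h2⟩ := h1
      exact ⟨s'', fun _ => h2⟩
    · exact ⟨s0, fun h => absurd h h1⟩
  choose ns hns using next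
  let st : (ℕ → Bool) → ℕ → S := fun y n => Nat.rec s0 (fun n s => ns (pre y n) s (y n)) n
  have st_succ : ∀ y n, st y (n + 1) = ns (pre y n) (st y n) (y n) := fun y n => rfl
  have stc : ∀ (y y' : ℕ → Bool) n, (∀ i < n, y i = y' i) → st y n = st y' n := by
    intro y y' n
    induction n with
    | zero => intro _; rfl
    | succ n ih =>
      intro h
      have h1 : pre y n = pre y' n := by
        refine List.map_congr_left fun i hi => ?_
        rw [List.mem_range] at hi
        exact h i (by omega)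
      rw [st_succ, st_succ, ih fun i hi => h i (by omega), h1, h n (by omega)]
  refine ⟨fun L => nb L (st (fun i => L.getD i false) L.length), fun x hx => ?_⟩
  have hx' : ∀ m, m % 2 = β → x m = nb (pre x m) (st x m) := by
    intro m hm
    have h1 := hx (m / 2)
    have h2 : 2 * (m / 2) + β = m := by omega
    rw [h2, hist_eq_pre] at h1
    rw [h1]
    beta_reduce
    rw [length_pre]
    congr 1
    exact stc _ _ _ fun i hi => pre_getD _ _ _ _ hi
  have step : ∀ n, P (pre x n) (st x n) →
      P (pre x (n + 1)) (st x (n + 1)) ∧ R (pre x n) (st x n) (st x (n + 1)) := by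
    intro n hn
    rw [st_succ, pre_succ]
    refine hns _ _ _ ?_
    by_cases h1 : n % 2 = β
    · rw [hx' n h1]
      exact hnb _ _ (by rwa [length_pre]) hn
    · exact opp _ _ (by rwa [length_pre]) hn (x n)
  have key : ∀ n, P (pre x n) (st x n) := by
    intro n
    induction n with
    | zero => exact h0
    | succ n ih => exact (step n ih).1
  exact fin x (st x) key fun n => (step n (key n)).2

end Pool.Agent.Y588.VT
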