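import Pool.Agent.Y588.VT.Game

set_option autoImplicit false

namespace Pool.Agent.Y588.VT

open Pool.Agent.Helper227 Pool.Agent.H685R3

theorem getD_eq_of_pre {L M : List Bool} (h : L <+: M) {i : ℕ} (hi : i < L.length) :
    M.getD i false = L.getD i false := getD_of_prefix h hi

/-- The finite sequence `L` is consistent with the strategy `s` of the player `β`. -/
def Con (s : List Bool → Bool) (β : ℕ) (L : List Bool) : Prop :=
  ∀ i < L.length, i % 2 = β → L.getD i false = s (L.take i)

/-- Between `L` and `M` the votes for the moves `j` with `q j` agree with the history `h`. -/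
def Fro (c : ℕ → ℕ → ℕ) (q : ℕ → Prop) (h L M : List Bool) : Prop :=
  ∀ j < h.length, q j → ∀ n, L.length ≤ c j n → c j n < M.length →
    M.getD (c j n) false = h.getD j false

theorem Fro.trans {c : ℕ → ℕ → ℕ} {q : ℕ → Prop} {h L M M' : List Bool}
    (h1 : Fro c q h L M) (h2 : M <+: M') (h3 : Fro c q h M M') : Fro c q h L M' := by
  intro j hj hq n hL hM
  by_cases h4 : c j n < M.length
  · rw [getD_eq_of_pre h2 h4]
    exact h1 j hj hq n hL h4
  · exact h3 j hj hq n (not_lt.1 h4) hM

theorem Fro.restrict {c : ℕ → ℕ → ℕ} {q : ℕ → Prop} {h L M M' : List Bool}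
    (h1 : Fro c q h L M') (h2 : L.length ≤ M.length) : Fro c q h M M' :=
  fun j hj hq n hL hM => h1 j hj hq n (h2.trans hL) hM

theorem Fro.init {c : ℕ → ℕ → ℕ} {q : ℕ → Prop} {h L M : List Bool} {b : Bool}
    (h1 : Fro c q (h ++ [b]) L M) : Fro c q h L M := by
  intro j hj hq n hL hM
  rw [h1 j (by simp; omega) hq n hL hM]
  exact List.getD_append _ _ _ _ hj

theorem Fro.self {c : ℕ → ℕ → ℕ} {q : ℕ → Prop} (h L : List Bool) : Fro c q h L L :=
  fun _ _ _ _ hL hM => absurd hM (not_lt.2 hL)

/-- The invariant: as long as the other player repeats the votes of the history, the votes of the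
player `β` repeat the history as well. -/
def Inv (c : ℕ → ℕ → ℕ) (s : List Bool → Bool) (β : ℕ) (h L : List Bool) : Prop :=
  Con s β L ∧ ∀ M, L <+: M → Con s β M → Fro c (fun j => j % 2 ≠ β) h L M →
    Fro c (fun j => j % 2 = β) h L M

variable {c : ℕ → ℕ → ℕ} {s : List Bool → Bool} {β : ℕ}

theorem exists_step (hc : Cols c) (h : List Bool) {L : List Bool} (hL : Con s β L) :
    ∃ b, Con s β (L ++ [b]) ∧ Fro c (fun j => j % 2 ≠ β) h L (L ++ [b]) := by
  classical
  have hlt : ∀ b i, i < L.length → (L ++ [b]).getD i false = L.getD i false ∧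
      (L ++ [b]).take i = L.take i := fun b i hi =>
    ⟨List.getD_append _ _ _ _ hi, List.take_append_of_le_length hi.le⟩
  have heq : ∀ b, (L ++ [b]).getD L.length false = b ∧ (L ++ [b]).take L.length = L := fun b =>
    ⟨by simp [List.getD], by simp⟩
  by_cases h1 : L.length % 2 = β
  · refine ⟨s L, fun i hi hβ => ?_, fun j hj hq n h2 h3 => ?_⟩
    · rcases Nat.lt_or_ge i L.length with h2 | h2
      · rw [(hlt _ i h2).1, (hlt _ i h2).2]
        exact hL i h2 hβ
      · simp only [List.length_append, List.length_singleton] at hi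
        obtain rfl : i = L.length := by omega
        rw [(heq _).1, (heq _).2]
    · simp only [List.length_append, List.length_singleton] at h3
      have h4 : c j n = L.length := by omega
      have h5 := hc.par j n
      rw [h4, h1] at h5
      exact absurd h5.symm hq
  · have hb : ∃ b : Bool, ∀ j < h.length, ∀ n, c j n = L.length → b = h.getD j false := by
      by_cases h2 : ∃ j n, j < h.length ∧ c j n = L.length
      · obtain ⟨j, n, hj, hn⟩ := h2
        refine ⟨h.getD j false, fun j' _ n' hn' => ?_⟩
        rw [hc.inj j n j' n' (hn.trans hn'.symm)]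
      · exact ⟨false, fun j hj n hn => absurd ⟨j, n, hj, hn⟩ h2⟩
    obtain ⟨b, hb⟩ := hb
    refine ⟨b, fun i hi hβ => ?_, fun j hj hq n h2 h3 => ?_⟩
    · rcases Nat.lt_or_ge i L.length with h2 | h2
      · rw [(hlt _ i h2).1, (hlt _ i h2).2]
        exact hL i h2 hβ
      · simp only [List.length_append, List.length_singleton] at hi
        obtain rfl : i = L.length := by omega
        exact absurd hβ h1
    · simp only [List.length_append, List.length_singleton] at h3
      have h4 : c j n = L.length := by omega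
      rw [h4, (heq _).1]
      exact hb j hj n h4

theorem Inv.ext {h L M : List Bool} (hI : Inv c s β h L) (hLM : L <+: M) (hM : Con s β M)
    (hF : Fro c (fun j => j % 2 ≠ β) h L M) : Inv c s β h M :=
  ⟨hM, fun _ h1 h2 h3 => (hI.2 _ (hLM.trans h1) h2 (hF.trans h1 h3)).restrict hLM.length_le⟩

theorem Inv.opp {h L : List Bool} (hI : Inv c s β h L) (hβ : h.length % 2 ≠ β) (b : Bool) :
    Inv c s β (h ++ [b]) L := by
  refine ⟨hI.1, fun M h1 h2 h3 j hj hq n h4 h5 => ?_⟩
  simp only [List.length_append, List.length_singleton] at hj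
  have h6 : j ≠ h.length := fun h => hβ (by rw [← h]; exact hq)
  have h7 : j < h.length := by omega
  rw [hI.2 M h1 h2 h3.init j h7 hq n h4 h5]
  exact (List.getD_append _ _ _ _ h7).symm

/-- A growing sequence of consistent finite sequences defines a play. -/
theorem exists_limit (q : ℕ → List Bool) (hq : ∀ n, q n <+: q (n + 1))
    (hl : ∀ n, (q n).length < (q (n + 1)).length) (hcon : ∀ n, Con s β (q n)) (hβ : β < 2) :
    ∃ x : ℕ → Bool, (∀ n, x (2 * n + β) = s (hist x (2 * n + β))) ∧
      ∀ n i, i < (q n).length → x i = (q n).getD i false := by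
  have hmono : ∀ m n, m ≤ n → q m <+: q n := by
    intro m n hmn
    induction hmn with
    | refl => exact List.prefix_rfl
    | step _ ih => exact ih.trans (hq _)
  have hlen : ∀ n, n ≤ (q n).length := by
    intro n
    induction n with
    | zero => omega
    | succ n ih =>
      have := hl n
      omega
  have hx : ∀ n i, i < (q n).length → (q (i + 1)).getD i false = (q n).getD i false := by
    intro n i hi
    have h1 : i < (q (i + 1)).length := hlen (i + 1)
    rcases le_total n (i + 1) with h | h
    · exact getD_of_prefix (hmono _ _ h) hi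
    · exact (getD_of_prefix (hmono _ _ h) h1).symm
  refine ⟨fun i => (q (i + 1)).getD i false, fun n => ?_, fun n i hi => hx n i hi⟩
  have h1 : 2 * n + β < (q (2 * n + β + 1)).length := hlen _
  beta_reduce
  rw [hcon (2 * n + β + 1) (2 * n + β) h1 (by omega)]
  congr 1
  rw [hist_eq_pre]
  refine List.ext_getElem (by simp; omega) fun i h2 h3 => ?_
  rw [length_pre] at h3
  rw [getElem_pre, List.getElem_take, hx (2 * n + β + 1) i (by omega)]
  exact (List.getD_eq_getElem _ _ _).symm

theorem Inv.own (hc : Cols c) (hβ : β < 2) {A : Set (ℕ → Bool)}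
    (hs : ∀ x : ℕ → Bool, (∀ n, x (2 * n + β) = s (hist x (2 * n + β))) → x ∈ VB c β A)
    {h L : List Bool} (hI : Inv c s β h L) (hk : h.length % 2 = β) :
    ∃ b L', Inv c s β (h ++ [b]) L' ∧ L <+: L' ∧ L.length < L'.length ∧
      Fro c (fun j => j % 2 ≠ β) h L L' := by
  classical
  by_contra hcon
  let Good : List Bool → Prop := fun M => L <+: M ∧ L.length < M.length ∧ Con s β M ∧
    Fro c (fun j => j % 2 ≠ β) h L M
  have step : ∀ (M : {M // Good M}) (b : Bool), ∃ M' : {M // Good M}, M.1 <+: M'.1 ∧
      M.1.length < M'.1.length ∧ ∃ n, M.1.length ≤ c h.length n ∧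
        c h.length n < M'.1.length ∧ M'.1.getD (c h.length n) false ≠ b := by
    rintro ⟨M, hM1, hM2, hM3, hM4⟩ b
    have h1 : ¬ Inv c s β (h ++ [b]) M := fun h1 => hcon ⟨b, M, h1, hM1, hM2, hM4⟩
    have h2 : ∃ M', M <+: M' ∧ Con s β M' ∧ Fro c (fun j => j % 2 ≠ β) (h ++ [b]) M M' ∧
        ¬ Fro c (fun j => j % 2 = β) (h ++ [b]) M M' := by
      by_contra h2
      refine h1 ⟨hM3, fun M' h3 h4 h5 => ?_⟩
      by_contra h6
      exact h2 ⟨M', h3, h4, h5, h6⟩
    obtain ⟨M', h3, h4, h5, h6⟩ := h2
    have h7 : Fro c (fun j => j % 2 ≠ β) h L M' := hM4.trans h3 h5.init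
    have h8 := hI.2 M' (hM1.trans h3) h4 h7
    unfold Fro at h6
    push Not at h6
    obtain ⟨j, hj, hq, n, h9, h10, h11⟩ := h6
    simp only [List.length_append, List.length_singleton] at hj
    have h12 : j = h.length := by
      by_contra h12
      have h13 : j < h.length := by omega
      refine h11 ?_
      rw [h8 j h13 hq n (hM1.length_le.trans h9) h10]
      exact (List.getD_append _ _ _ _ h13).symm
    subst h12
    have h13 : (h ++ [b]).getD h.length false = b := by simp [List.getD]
    rw [h13] at h11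
    exact ⟨⟨M', hM1.trans h3, by omega, h4, h7⟩, h3, by simp only; omega, n, h9, h10, h11⟩
  choose f hf1 hf2 hf3 using step
  obtain ⟨b0, hb1, hb2⟩ := exists_step hc h hI.1
  have hg0 : Good (L ++ [b0]) := ⟨List.prefix_append _ _, by simp, hb1, hb2⟩
  let g : ℕ → {M // Good M} := fun n =>
    Nat.rec ⟨L ++ [b0], hg0⟩ (fun n M => f M (decide (n % 2 = 0))) n
  have gs : ∀ n, g (n + 1) = f (g n) (decide (n % 2 = 0)) := fun n => rfl
  obtain ⟨x, hx1, hx2⟩ := exists_limit (s := s) (β := β) (fun n => (g n).1)
    (fun n => by rw [gs]; exact hf1 _ _) (fun n => by rw [gs]; exact hf2 _ _)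
    (fun n => (g n).2.2.2.1) hβ
  have hlen : ∀ n, n < (g n).1.length := by
    intro n
    induction n with
    | zero =>
      have := (g 0).2.2.1
      omega
    | succ n ih =>
      have := hf2 (g n) (decide (n % 2 = 0))
      rw [gs]
      omega
  -- the moves in the history are settled
  have hset : ∀ j < h.length, Settled c x j (h.getD j false) := by
    intro j hj
    refine ⟨L.length, fun n hn => ?_⟩
    have h1 : c j n < (g (c j n)).1.length := hlen _
    have h2 : L.length ≤ c j n := le_trans hn (hc.le j n)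
    rw [hx2 _ _ h1]
    obtain ⟨h3, _, h4, h5⟩ := (g (c j n)).2
    by_cases h6 : j % 2 = β
    · exact hI.2 _ h3 h4 h5 j hj h6 n h2 h1
    · exact h5 j hj h6 n h2 h1
  have huns : ∀ b, ¬ Settled c x h.length b := by
    rintro b ⟨N, hN⟩
    have hn0 : ∃ n0, decide (n0 % 2 = 0) = b ∧ c h.length N ≤ n0 := by
      cases b with
      | true => exact ⟨2 * c h.length N, by simp, by omega⟩
      | false => exact ⟨2 * c h.length N + 1, by simp, by omega⟩
    obtain ⟨n0, h1, h2⟩ := hn0
    obtain ⟨n, h3, h4, h5⟩ := hf3 (g n0) (decide (n0 % 2 = 0))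
    rw [← gs] at h4 h5
    rw [h1] at h5
    have h6 : c h.length N < c h.length n := by
      have := hlen n0
      omega
    have h7 := hc.lt_of h6
    rw [← hx2 (n0 + 1) _ h4, hN n h7.le] at h5
    exact h5 rfl
  rcases hs x hx1 with ⟨y, _, hy⟩ | ⟨k, hk1, hk2, hk3⟩
  · exact huns _ (hy _)
  · rcases lt_trichotomy k h.length with h1 | h1 | h1
    · exact hk2 _ (hset k h1)
    · rw [h1] at hk1
      exact hk1 hk
    · obtain ⟨b, hb⟩ := hk3 _ h1
      exact huns _ hb

theorem wins_of_VB (hc : Cols c) (hβ : β < 2) {A : Set (ℕ → Bool)} (h : Wins β (VB c β A)) :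
    Wins β A := by
  obtain ⟨s, hs⟩ := h
  refine wins_of_memory (S := List Bool) (fun h L => Inv c s β h L)
    (fun h L L' => L <+: L' ∧ L.length < L'.length ∧ Fro c (fun j => j % 2 ≠ β) h L L') []
    ⟨fun i hi => absurd hi (by simp), fun M _ _ _ j hj => absurd hj (by simp)⟩ ?_ ?_ ?_
  · intro h L hk hI
    obtain ⟨b, L', h1, h2⟩ := hI.own hc hβ hs hk
    exact ⟨b, L', h1, h2⟩
  · intro h L hk hI b
    have h1 := hI.opp hk b
    obtain ⟨b', h2, h3⟩ := exists_step hc (h ++ [b]) h1.1
    exact ⟨L ++ [b'], h1.ext (List.prefix_append _ _) h2 h3, List.prefix_append _ _, by simp,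
      h3.init⟩
  · intro y q hP hR
    obtain ⟨x, hx1, hx2⟩ := exists_limit (s := s) (β := β) q (fun n => (hR n).1)
      (fun n => (hR n).2.1) (fun n => (hP n).1) hβ
    have hmono : ∀ m n, m ≤ n → q m <+: q n := by
      intro m n hmn
      induction hmn with
      | refl => exact List.prefix_rfl
      | step _ ih => exact ih.trans (hR _).1
    have hlen : ∀ n, n ≤ (q n).length := by
      intro n
      induction n with
      | zero => omega
      | succ n ih =>
        have := (hR n).2.1
        omega
    have chain : ∀ k d, Fro c (fun j => j % 2 ≠ β) (pre y k) (q k) (q (k + d)) := by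
      intro k d
      induction d with
      | zero => exact Fro.self _ _
      | succ d ih =>
        refine ih.trans (hR _).1 fun j hj hq n h1 h2 => ?_
        rw [length_pre] at hj
        have h3 := (hR (k + d)).2.2 j (by rw [length_pre]; omega) hq n h1 h2
        rw [pre_getD _ _ _ _ (by omega)] at h3
        rw [pre_getD _ _ _ _ hj]
        exact h3
    have hset : ∀ j, Settled c x j (y j) := by
      intro j
      refine ⟨(q (j + 1)).length, fun n hn => ?_⟩
      have h1 : (q (j + 1)).length ≤ c j n := le_trans hn (hc.le j n)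
      have h2 : c j n < (q (j + 1 + (c j n))).length := by
        have := hlen (j + 1 + c j n)
        omega
      rw [hx2 _ _ h2]
      have h3 := chain (j + 1) (c j n)
      have h4 : (pre y (j + 1)).getD j false = y j := pre_getD _ _ _ _ (by omega)
      rw [← h4]
      by_cases h5 : j % 2 = β
      · exact (hP (j + 1)).2 _ (hmono _ _ (by omega)) (hP _).1 h3 j (by simp) h5 n h1 h2
      · exact h3 j (by simp) h5 n h1 h2
    rcases hs x hx1 with ⟨y', hy', h1⟩ | ⟨k, _, h1, _⟩
    · have : y' = y := funext fun k => (h1 k).unique (hset k)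
      rwa [this] at hy'
    · exact absurd (hset k) (h1 _)

theorem wins_VB_iff (hc : Cols c) (hβ : β < 2) {A : Set (ℕ → Bool)} :
    Wins β (VB c β A) ↔ Wins β A :=
  ⟨wins_of_VB hc hβ, wins_VB hc hβ⟩

theorem winsI_voting (hc : Cols c) (A : Set (ℕ → Bool)) : WinsI (Voting c A) ↔ WinsI A := by
  rw [voting_eq]
  exact wins_VB_iff hc (β := 0) (by omega)

theorem winsII_voting (hc : Cols c) (A : Set (ℕ → Bool)) : WinsII (Voting c A) ↔ WinsII A := by
  rw [winsII_iff, winsII_iff, voting_compl]
  exact wins_VB_iff hc (β := 1) (by omega)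

end Pool.Agent.Y588.VT
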