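import Pool.Agent.H685R3.KDefs

set_option autoImplicit false

namespace Pool.Agent.Y588.VT

/-- The position at which the vote number `n` for the move number `k` is cast. The positions for
even `k` are even and those for odd `k` are odd. -/
def col (k n : ℕ) : ℕ := 2 ^ (n + 1) * (2 * (k / 2) + 1) - k % 2

/-- In `x`, all but finitely many of the votes for the move number `k` (which are cast at the
positions `c k 0`, `c k 1`, `c k 2`, ...) are `b`. -/
def Settled (c : ℕ → ℕ → ℕ) (x : ℕ → Bool) (k : ℕ) (b : Bool) : Prop :=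
  ∃ N, ∀ n ≥ N, x (c k n) = b

/-- The voting set of `A`: either all moves are settled and the settled sequence lies in `A`, or
some move is not settled and the first such move is a move of player II. -/
def Voting (c : ℕ → ℕ → ℕ) (A : Set (ℕ → Bool)) : Set (ℕ → Bool) :=
  {x | (∃ y ∈ A, ∀ k, Settled c x k (y k)) ∨
    ∃ k, k % 2 = 1 ∧ (∀ b, ¬ Settled c x k b) ∧ ∀ j < k, ∃ b, Settled c x j b}

/-- `A` is closed under finite changes. -/
def TailInvariant (A : Set (ℕ → Bool)) : Prop :=
  ∀ x y, {n | x n ≠ y n}.Finite → (x ∈ A ↔ y ∈ A)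

/-- `A` is closed under changes which affect only finitely many bits in every column. -/
def ColumnInvariant (A : Set (ℕ → Bool)) : Prop :=
  ∀ x y, (∀ k, {n | x (col k n) ≠ y (col k n)}.Finite) → (x ∈ A ↔ y ∈ A)

/-- The permutation `2 m ↦ 4 m`, `4 m + 1 ↦ 4 m + 2`, `4 m + 3 ↦ 2 m + 1`. -/
def fa (n : ℕ) : ℕ := if n % 2 = 0 then 2 * n else if n % 4 = 1 then n + 1 else n / 2

/-- The permutation which fixes `2 n` and maps `2 n + 1` to `2 * fa n + 1`. -/
def fb (n : ℕ) : ℕ := if n % 2 = 0 then n else 2 * fa (n / 2) + 1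

/-- `A` is closed under rearranging the positions by `fa` and `fb`, which generate a copy of
Thompson's interval group, and by their inverses. -/
def IntervalInvariant (A : Set (ℕ → Bool)) : Prop :=
  ∀ x, (x ∘ fa ∈ A ↔ x ∈ A) ∧ (x ∘ fb ∈ A ↔ x ∈ A)

end Pool.Agent.Y588.VT
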