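import Pool.Agent.Y588.VT.Back

set_option autoImplicit false

namespace Pool.Agent.Y588.VT

open Pool.Agent.Helper227 Pool.Agent.H685R3

theorem odd_part {a b i j : ℕ} (h : 2 ^ a * (2 * i + 1) = 2 ^ b * (2 * j + 1)) :
    a = b ∧ i = j := by
  induction a generalizing b with
  | zero =>
    cases b with
    | zero => exact ⟨rfl, by omega⟩
    | succ b =>
      exfalso
      rw [pow_succ'] at h
      have : 2 * 2 ^ b * (2 * j + 1) = 2 * (2 ^ b * (2 * j + 1)) := by ring
      omega
  | succ a ih =>
    cases b with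
    | zero =>
      exfalso
      rw [pow_succ'] at h
      have : 2 * 2 ^ a * (2 * i + 1) = 2 * (2 ^ a * (2 * i + 1)) := by ring
      omega
    | succ b =>
      have h1 : 2 * 2 ^ a * (2 * i + 1) = 2 * (2 ^ a * (2 * i + 1)) := by ring
      have h2 : 2 * 2 ^ b * (2 * j + 1) = 2 * (2 ^ b * (2 * j + 1)) := by ring
      rw [pow_succ', pow_succ', h1, h2] at h
      obtain ⟨h3, h4⟩ := ih (b := b) (by omega)
      exact ⟨by rw [h3], h4⟩

/-- The unit of the column `k`. -/
def un (k n : ℕ) : ℕ := 2 ^ n * (2 * (k / 2) + 1)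

theorem un_pos (k n : ℕ) : 0 < un k n := Nat.mul_pos (pow_pos (by omega) _) (by omega)

theorem un_succ (k n : ℕ) : un k (n + 1) = 2 * un k n := by
  rw [un, un, pow_succ']
  ring

theorem col_eq (k n : ℕ) : col k n = 2 * un k n - k % 2 := by
  rw [← un_succ]
  rfl

theorem cols_col : Cols col where
  par k n := by
    rw [col_eq]
    have := un_pos k n
    omega
  inj k n k' n' h := by
    rw [col_eq, col_eq] at h
    have h1 := un_pos k n
    have h2 := un_pos k' n'
    have h3 : un k n = un k' n' := by omega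
    have h4 := (odd_part h3).2
    omega
  mono k n n' h := by
    have h1 : ∀ d, un k n < un k (n + d + 1) := by
      intro d
      induction d with
      | zero =>
        have := un_pos k n
        have h2 : un k (n + 0 + 1) = 2 * un k n := un_succ k n
        omega
      | succ d ih =>
        have := un_pos k (n + d + 1)
        rw [show n + (d + 1) + 1 = (n + d + 1) + 1 by ring, un_succ]
        omega
    obtain ⟨d, rfl⟩ : ∃ d, n' = n + d + 1 := ⟨n' - n - 1, by omega⟩
    rw [col_eq, col_eq]
    have := h1 d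
    omega

theorem voting_congr {c : ℕ → ℕ → ℕ} {A : Set (ℕ → Bool)} {x y : ℕ → Bool}
    (h : ∀ k b, Settled c x k b ↔ Settled c y k b) : x ∈ Voting c A ↔ y ∈ Voting c A := by
  simp only [Voting, Set.mem_setOf_eq, h]

theorem columnInvariant_voting (A : Set (ℕ → Bool)) : ColumnInvariant (Voting col A) := by
  intro x y h
  have h1 : ∀ k, ∃ B, ∀ n, B ≤ n → x (col k n) = y (col k n) := by
    intro k
    obtain ⟨B, hB⟩ := (h k).bddAbove
    refine ⟨B + 1, fun n hn => ?_⟩
    by_contra h2
    have := hB h2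
    omega
  refine voting_congr fun k b => ?_
  obtain ⟨B, hB⟩ := h1 k
  constructor
  · rintro ⟨N, hN⟩
    refine ⟨N + B, fun n hn => ?_⟩
    rw [← hB _ (by omega)]
    exact hN n (by omega)
  · rintro ⟨N, hN⟩
    refine ⟨N + B, fun n hn => ?_⟩
    rw [hB _ (by omega)]
    exact hN n (by omega)

theorem tailInvariant_voting {c : ℕ → ℕ → ℕ} (hc : Cols c) (A : Set (ℕ → Bool)) :
    TailInvariant (Voting c A) := by
  intro x y h
  obtain ⟨B, hB⟩ := h.bddAbove
  have h1 : ∀ n, B + 1 ≤ n → x n = y n := by
    intro n hn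
    by_contra h2
    have := hB h2
    omega
  refine voting_congr fun k b => ⟨?_, ?_⟩
  · rintro ⟨N, hN⟩
    refine ⟨N + (B + 1), fun n hn => ?_⟩
    have := hc.le k n
    rw [← h1 _ (by omega)]
    exact hN n (by omega)
  · rintro ⟨N, hN⟩
    refine ⟨N + (B + 1), fun n hn => ?_⟩
    have := hc.le k n
    rw [h1 _ (by omega)]
    exact hN n (by omega)

theorem settled_comp {c : ℕ → ℕ → ℕ} {f : ℕ → ℕ} {k : ℕ} (d e : ℕ)
    (h : ∀ n, f (c k (n + d)) = c k (n + e)) (x : ℕ → Bool) (b : Bool) :
    Settled c (x ∘ f) k b ↔ Settled c x k b := by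
  constructor
  · rintro ⟨N, hN⟩
    refine ⟨N + e, fun m hm => ?_⟩
    obtain ⟨n, rfl⟩ : ∃ n, m = n + e := ⟨m - e, by omega⟩
    rw [← h]
    exact hN (n + d) (by omega)
  · rintro ⟨N, hN⟩
    refine ⟨N + d, fun m hm => ?_⟩
    obtain ⟨n, rfl⟩ : ∃ n, m = n + d := ⟨m - d, by omega⟩
    rw [Function.comp_apply, h]
    exact hN (n + e) (by omega)

theorem settled_fa (x : ℕ → Bool) (k : ℕ) (b : Bool) :
    Settled col (x ∘ fa) k b ↔ Settled col x k b := by
  by_cases hk : k % 2 = 0
  · refine settled_comp 0 1 (fun n => ?_) x b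
    have h1 := un_pos k n
    have h2 := un_succ k n
    change fa (col k n) = col k (n + 1)
    rw [col_eq, col_eq, hk, h2, fa, if_pos (by omega)]
    omega
  · refine settled_comp 1 0 (fun n => ?_) x b
    have h1 := un_pos k n
    have h2 := un_succ k n
    change fa (col k (n + 1)) = col k n
    rw [col_eq, col_eq, h2, fa, if_neg (by omega), if_neg (by omega)]
    omega

theorem settled_fb (x : ℕ → Bool) (k : ℕ) (b : Bool) :
    Settled col (x ∘ fb) k b ↔ Settled col x k b := by
  by_cases hk : k % 2 = 0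
  · refine settled_comp 0 0 (fun n => ?_) x b
    change fb (col k n) = col k n
    rw [col_eq, hk, fb, if_pos (by omega)]
  · refine settled_comp 2 1 (fun n => ?_) x b
    have h1 := un_pos k n
    have h2 := un_succ k n
    have h3 : un k (n + 2) = 2 * un k (n + 1) := un_succ k (n + 1)
    have h4 : col k (n + 2) = 8 * un k n - 1 := by rw [col_eq]; omega
    have h5 : (8 * un k n - 1) / 2 = 4 * un k n - 1 := by omega
    have h6 : fa (4 * un k n - 1) = 2 * un k n - 1 := by
      rw [fa, if_neg (by omega), if_neg (by omega)]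
      omega
    rw [h4, col_eq, fb, if_neg (by omega), h5, h6]
    omega

theorem intervalInvariant_voting (A : Set (ℕ → Bool)) : IntervalInvariant (Voting col A) :=
  fun x => ⟨voting_congr fun k b => settled_fa x k b, voting_congr fun k b => settled_fb x k b⟩

end Pool.Agent.Y588.VT
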